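import Pool.Agent.VCM.General

open FirstOrder FirstOrder.Language

namespace Pool.Agent.Results.MP_e0833a_lc.LowVCDensity

/-- Every VC-minimal theory (families of independence dimension at most one) has low VC-density: the number of
`φ(x₁..x_m; y)`-types over a finite set `B` is at most `C (|B|+1)^m`. -/
theorem result (L : FirstOrder.Language.{0, 0}) (M : Type) [L.Structure M]
    (h : Pool.Agent.VCM.VCMinimalTheory L M) (m k : ℕ) (φ : L.Formula (Fin m ⊕ Fin k)) :
    ∃ C : ℕ, ∀ B : Finset (Fin k → M),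
      {S : Finset (Fin k → M) | S ⊆ B ∧ ∃ a : Fin m → M, ∀ b ∈ B, (b ∈ S ↔ φ.Realize (Sum.elim a b))}.ncard
        ≤ C * (B.card + 1) ^ m :=
  Pool.Agent.VCM.counting L M h m k φ

end Pool.Agent.Results.MP_e0833a_lc.LowVCDensity
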